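import Mathlib

set_option autoImplicit false

open Set Metric Filter Topology

namespace Pool.Agent.V1171.RH

/-- `u` is a continuous plurisubharmonic function on `D`: it is continuous on `D`, and for every
closed affine disc `{a + t b : |t| ≤ 1}` contained in `D` the value at the centre is at most the
mean over the boundary circle. -/
def IsContPsh {n : ℕ} (u : (Fin n → ℂ) → ℝ) (D : Set (Fin n → ℂ)) : Prop :=
  ContinuousOn u D ∧ ∀ a b : Fin n → ℂ, (∀ t ∈ closedBall (0 : ℂ) 1, a + t • b ∈ D) →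
    u a ≤ Real.circleAverage (fun t => u (a + t • b)) 0 1

/-- `D` is pseudoconvex: it has a continuous plurisubharmonic exhaustion function. -/
def IsPseudoconvex {n : ℕ} (D : Set (Fin n → ℂ)) : Prop :=
  ∃ u : (Fin n → ℂ) → ℝ, IsContPsh u D ∧ ∀ c : ℝ, IsCompact {z | z ∈ D ∧ u z ≤ c}

/-- `D` is invariant under rotations of the coordinates. -/
def IsReinhardt {n : ℕ} (D : Set (Fin n → ℂ)) : Prop :=
  ∀ z ∈ D, ∀ θ : Fin n → ℝ, (fun i => Complex.exp (θ i * Complex.I) * z i) ∈ D

/-- The Euclidean distance of `z` to the boundary of `D`. -/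
noncomputable def bdist {n : ℕ} (D : Set (Fin n → ℂ)) (z : Fin n → ℂ) : ℝ :=
  sInf {r : ℝ | ∃ w ∈ frontier D, r = Real.sqrt (∑ i, ‖z i - w i‖ ^ 2)}

end Pool.Agent.V1171.RH
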