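import Pool.Agent.V1171.RH.Psh
import Pool.Agent.V1171.Kob.Limit

/-!
The domain.
-/

set_option autoImplicit false

open Set Metric Filter Topology

namespace Pool.Agent.V1171.RH

/-- The defining functions. -/
noncomputable def ff : ℕ → (Fin 3 → ℂ) → ℂ
  | 0, z => z 0
  | 1, z => z 1 * (Real.exp (-1) : ℂ)
  | 2, z => z 2 * (Real.exp (-1) : ℂ)
  | k + 3, z => z 0 ^ (256 ^ (k + 1)) * z 1 * z 2 ^ (64 ^ (k + 1)) * (Real.exp (-16 ^ (k + 1)) : ℂ)

theorem ff_diff (i : ℕ) : Differentiable ℂ (ff i) := by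
  match i with
  | 0 =>
    change Differentiable ℂ (fun z : Fin 3 → ℂ => z 0)
    fun_prop
  | 1 =>
    change Differentiable ℂ (fun z : Fin 3 → ℂ => z 1 * (Real.exp (-1) : ℂ))
    fun_prop
  | 2 =>
    change Differentiable ℂ (fun z : Fin 3 → ℂ => z 2 * (Real.exp (-1) : ℂ))
    fun_prop
  | k + 3 =>
    change Differentiable ℂ (fun z : Fin 3 → ℂ =>
      z 0 ^ (256 ^ (k + 1)) * z 1 * z 2 ^ (64 ^ (k + 1)) * (Real.exp (-16 ^ (k + 1)) : ℂ))
    fun_prop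

theorem norm_exp_real (x : ℝ) : ‖(Real.exp x : ℂ)‖ = Real.exp x := by
  rw [Complex.norm_real, Real.norm_of_nonneg (Real.exp_pos x).le]

theorem ff_mono {z w : Fin 3 → ℂ} (h : ∀ j, ‖w j‖ ≤ ‖z j‖) (i : ℕ) : ‖ff i w‖ ≤ ‖ff i z‖ := by
  match i with
  | 0 => exact h 0
  | 1 => simp only [ff, norm_mul]; gcongr; exact h 1
  | 2 => simp only [ff, norm_mul]; gcongr; exact h 2
  | k + 3 =>
    simp only [ff, norm_mul, norm_pow]
    gcongr
    · exact h 0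
    · exact h 1
    · exact h 2

theorem norm_ff_le (k : ℕ) {z : Fin 3 → ℂ} {a b c r : ℝ} (hr : 0 ≤ r)
    (h0 : ‖z 0‖ ≤ Real.exp (-a)) (h1 : ‖z 1‖ ≤ r * Real.exp b) (h2 : ‖z 2‖ ≤ Real.exp c) :
    ‖ff (k + 3) z‖ ≤ r * Real.exp (-a * ((4 : ℝ) ^ (k + 1)) ^ 4 + b + c * ((4 : ℝ) ^ (k + 1)) ^ 3
      - ((4 : ℝ) ^ (k + 1)) ^ 2) := by
  simp only [ff, norm_mul, norm_pow, norm_exp_real]
  calc ‖z 0‖ ^ 256 ^ (k + 1) * ‖z 1‖ * ‖z 2‖ ^ 64 ^ (k + 1) * Real.exp (-16 ^ (k + 1))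
      ≤ Real.exp (-a) ^ 256 ^ (k + 1) * (r * Real.exp b) * Real.exp c ^ 64 ^ (k + 1) *
        Real.exp (-16 ^ (k + 1)) := by gcongr
    _ = r * Real.exp (-a * ((4 : ℝ) ^ (k + 1)) ^ 4 + b + c * ((4 : ℝ) ^ (k + 1)) ^ 3
      - ((4 : ℝ) ^ (k + 1)) ^ 2) := by
        rw [← Real.exp_nat_mul, ← Real.exp_nat_mul]
        have e4 : ((4 : ℝ) ^ (k + 1)) ^ 4 = 256 ^ (k + 1) := by
          rw [← pow_mul, mul_comm, pow_mul]; norm_num
        have e3 : ((4 : ℝ) ^ (k + 1)) ^ 3 = 64 ^ (k + 1) := by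
          rw [← pow_mul, mul_comm, pow_mul]; norm_num
        have e2 : ((4 : ℝ) ^ (k + 1)) ^ 2 = 16 ^ (k + 1) := by
          rw [← pow_mul, mul_comm, pow_mul]; norm_num
        rw [e4, e3, e2]
        push_cast
        rw [show -a * (256 : ℝ) ^ (k + 1) + b + c * 64 ^ (k + 1) - 16 ^ (k + 1) =
          256 ^ (k + 1) * -a + b + 64 ^ (k + 1) * c + -16 ^ (k + 1) by ring,
          Real.exp_add, Real.exp_add, Real.exp_add]
        ring

/-- The domain. -/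
def DD : Set (Fin 3 → ℂ) := Dom ff

theorem ff_rot (z : Fin 3 → ℂ) {w : Fin 3 → ℂ} (h : ∀ j, ‖w j‖ ≤ ‖z j‖) (hz : z ∈ DD) : w ∈ DD :=
  fun i => (ff_mono h i).trans_lt (hz i)

theorem reinhardt_DD : IsReinhardt DD := by
  intro z hz θ
  apply ff_rot z _ hz
  intro j
  rw [norm_mul, Complex.norm_exp_ofReal_mul_I, one_mul]

theorem zero_mem : (0 : Fin 3 → ℂ) ∈ DD := by
  intro i
  match i with
  | 0 => simp [ff]
  | 1 => simp [ff]
  | 2 => simp [ff]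
  | k + 3 => simp [ff]

theorem connected_DD : IsConnected DD := by
  have h : StarConvex ℝ 0 DD := by
    rw [starConvex_zero_iff]
    intro z hz t ht0 ht1
    apply ff_rot z _ hz
    intro j
    rw [Pi.smul_apply, norm_smul, Real.norm_of_nonneg ht0]
    exact mul_le_of_le_one_left (norm_nonneg _) ht1
  exact (h.isPathConnected zero_mem).isConnected

theorem ball_of_mem {z : Fin 3 → ℂ} (h : ∀ i, ‖ff i z‖ ≤ 1) :
    ‖z 0‖ ≤ 1 ∧ ‖z 1‖ ≤ Real.exp 1 ∧ ‖z 2‖ ≤ Real.exp 1 := by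
  have h0 := h 0
  have h1 := h 1
  have h2 := h 2
  simp only [ff, norm_mul, norm_exp_real] at h0 h1 h2
  rw [Real.exp_neg] at h1 h2
  refine ⟨h0, ?_, ?_⟩
  · rwa [← div_eq_mul_inv, div_le_one (Real.exp_pos 1)] at h1
  · rwa [← div_eq_mul_inv, div_le_one (Real.exp_pos 1)] at h2

theorem ball_of_mem' {z : Fin 3 → ℂ} (h : ∀ i, ‖ff i z‖ < 1) :
    ‖z 0‖ < 1 ∧ ‖z 1‖ < Real.exp 1 ∧ ‖z 2‖ < Real.exp 1 := by
  have h0 := h 0
  have h1 := h 1
  have h2 := h 2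
  simp only [ff, norm_mul, norm_exp_real] at h0 h1 h2
  rw [Real.exp_neg] at h1 h2
  refine ⟨h0, ?_, ?_⟩
  · rwa [← div_eq_mul_inv, div_lt_one (Real.exp_pos 1)] at h1
  · rwa [← div_eq_mul_inv, div_lt_one (Real.exp_pos 1)] at h2

theorem bounded_aux : Bornology.IsBounded {z | ∀ i, ‖ff i z‖ ≤ 1} := by
  apply (isBounded_closedBall (x := (0 : Fin 3 → ℂ)) (r := Real.exp 1)).subset
  intro z hz
  obtain ⟨h0, h1, h2⟩ := ball_of_mem hz
  rw [mem_closedBall_zero_iff, pi_norm_le_iff_of_nonneg (Real.exp_pos 1).le]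
  intro i
  fin_cases i
  · exact h0.trans (Real.one_le_exp zero_le_one)
  · exact h1
  · exact h2

theorem locFin_ff : LocFin ff := by
  intro z hz
  obtain ⟨h0, h1, h2⟩ := ball_of_mem' hz
  set q : ℝ := (1 + ‖z 0‖) / 2 with hq
  have hq0 : 0 < q := by have := norm_nonneg (z 0); rw [hq]; linarith
  have hq1 : q < 1 := by rw [hq]; linarith
  have hzq : ‖z 0‖ < q := by rw [hq]; linarith
  set a : ℝ := -Real.log q with ha
  have ha0 : 0 < a := by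
    have := Real.log_neg hq0 hq1
    rw [ha]; linarith
  have hqa : Real.exp (-a) = q := by rw [ha, neg_neg, Real.exp_log hq0]
  obtain ⟨N, hN⟩ := pow_unbounded_of_one_lt (a⁻¹) (by norm_num : (1 : ℝ) < 4)
  refine ⟨{w | ‖w 0‖ < q ∧ ‖w 1‖ < Real.exp 1 ∧ ‖w 2‖ < Real.exp 1}, ?_, N + 3, ?_⟩
  · refine IsOpen.mem_nhds ?_ (show ‖z 0‖ < q ∧ ‖z 1‖ < Real.exp 1 ∧ ‖z 2‖ < Real.exp 1 from
      ⟨hzq, h1, h2⟩)
    apply IsOpen.and
    · exact isOpen_lt (by fun_prop) continuous_const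
    apply IsOpen.and
    · exact isOpen_lt (by fun_prop) continuous_const
    · exact isOpen_lt (by fun_prop) continuous_const
  · rintro i hi w ⟨hw0, hw1, hw2⟩
    obtain ⟨k, rfl⟩ : ∃ k, i = k + 3 := ⟨i - 3, by omega⟩
    have hk : N ≤ k := by omega
    have hb := norm_ff_le k (z := w) (a := a) (b := 1) (c := 1) (r := 1) zero_le_one
      (by rw [hqa]; exact hw0.le) (by rw [one_mul]; exact hw1.le) hw2.le
    set Y : ℝ := (4 : ℝ) ^ (k + 1) with hY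
    have hY4 : 4 ≤ Y := by
      rw [hY, pow_succ]
      have := one_le_pow₀ (by norm_num : (1 : ℝ) ≤ 4) (n := k)
      linarith
    have hYa : 1 ≤ a * Y := by
      have h5 : (4 : ℝ) ^ N ≤ Y := pow_le_pow_right₀ (by norm_num) (by omega)
      have h6 : a⁻¹ ≤ Y := by linarith
      calc (1 : ℝ) = a * a⁻¹ := (mul_inv_cancel₀ ha0.ne').symm
        _ ≤ a * Y := by gcongr
    have hexp : -a * Y ^ 4 + 1 + 1 * Y ^ 3 - Y ^ 2 ≤ -1 := by
      have h7 : 0 ≤ Y ^ 3 * (a * Y - 1) := mul_nonneg (by positivity) (by linarith)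
      nlinarith
    have h8 : ‖ff (k + 3) w‖ ≤ Real.exp (-1) := by
      rw [one_mul] at hb
      exact hb.trans (Real.exp_le_exp.mpr hexp)
    have h9 : ‖ff (k + 3) w‖ ^ 2 ≤ Real.exp (-1) ^ 2 := by gcongr
    have h10 : Real.exp (-1) ≤ 1 / 2 := by
      have := Real.exp_neg_one_lt_d9
      linarith
    have h11 : 0 < Real.exp (-1) := Real.exp_pos _
    nlinarith

theorem isOpen_DD : IsOpen DD := isOpen_dom (fun i => (ff_diff i).continuous) locFin_ff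

theorem pseudoconvex_DD : IsPseudoconvex DD := pseudoconvex_dom ff_diff locFin_ff bounded_aux

theorem isBounded_DD : Bornology.IsBounded DD := bounded_aux.subset fun _ hz i => (hz i).le

end Pool.Agent.V1171.RH
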