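import Pool.Agent.V1171.RH.Dom

/-!
The Kobayashi distance and the distance to the boundary along a sequence.
-/

set_option autoImplicit false

open Set Metric Filter Topology Pool.Agent.V1171.Kob

namespace Pool.Agent.V1171.RH

/-- Points of the domain. -/
noncomputable def pt (X : ℝ) : Fin 3 → ℂ :=
  ![(Real.exp (-(X⁻¹ ^ 2 + X⁻¹ ^ 6)) : ℂ), 1, (Real.exp (2 * X⁻¹) : ℂ)]

/-- Points of the boundary. -/
noncomputable def wpt (X : ℝ) : Fin 3 → ℂ :=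
  ![(Real.exp (-(X⁻¹ ^ 2)) : ℂ), 1, (Real.exp (2 * X⁻¹) : ℂ)]

/-- The pivot estimate. -/
theorem key_le {X Y : ℝ} (t : ℝ) :
    -(X⁻¹ ^ 2 + t) * Y ^ 4 + 0 + 2 * X⁻¹ * Y ^ 3 - Y ^ 2 ≤ -t * Y ^ 4 := by
  have : 0 ≤ Y ^ 2 * (Y * X⁻¹ - 1) ^ 2 := by positivity
  nlinarith

theorem mem_of_t {X : ℝ} (hX : 4 ≤ X) {t : ℝ} (ht : 0 < t) :
    ![(Real.exp (-(X⁻¹ ^ 2 + t)) : ℂ), 1, (Real.exp (2 * X⁻¹) : ℂ)] ∈ DD := by
  have hX0 : 0 < X := by linarith
  have hXi : X⁻¹ ≤ 1 / 4 := by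
    rw [inv_le_comm₀ hX0 (by norm_num)]
    norm_num
    exact hX
  intro i
  match i with
  | 0 =>
    simp only [ff, Matrix.cons_val_zero, norm_exp_real]
    rw [Real.exp_lt_one_iff]
    have : 0 < X⁻¹ ^ 2 := by positivity
    linarith
  | 1 =>
    simp only [ff, Matrix.cons_val_one, norm_mul, norm_exp_real]
    simp
  | 2 =>
    simp only [ff, Matrix.cons_val, norm_mul, norm_exp_real]
    rw [← Real.exp_add, Real.exp_lt_one_iff]
    linarith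
  | k + 3 =>
    have h := norm_ff_le k (z := ![(Real.exp (-(X⁻¹ ^ 2 + t)) : ℂ), 1, (Real.exp (2 * X⁻¹) : ℂ)])
      (a := X⁻¹ ^ 2 + t) (b := 0) (c := 2 * X⁻¹) (r := 1) zero_le_one
      (by simp only [Matrix.cons_val_zero, norm_exp_real]; exact le_rfl) (by simp)
      (by simp only [Matrix.cons_val, norm_exp_real]; exact le_rfl)
    rw [one_mul] at h
    refine h.trans_lt ?_
    rw [Real.exp_lt_one_iff]
    refine (key_le t).trans_lt ?_
    have : 0 < t * ((4 : ℝ) ^ (k + 1)) ^ 4 := by positivity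
    linarith

theorem wpt_not_mem (k : ℕ) : wpt ((4 : ℝ) ^ (k + 1)) ∉ DD := by
  intro h
  have h1 := h (k + 3)
  set X : ℝ := (4 : ℝ) ^ (k + 1) with hX
  have hX0 : 0 < X := by positivity
  have e0 : wpt X 0 = (Real.exp (-(X⁻¹ ^ 2)) : ℂ) := rfl
  have e1 : wpt X 1 = 1 := rfl
  have e2 : wpt X 2 = (Real.exp (2 * X⁻¹) : ℂ) := rfl
  simp only [ff, norm_mul, norm_pow, norm_exp_real, e0, e1, e2, mul_one] at h1
  rw [← Real.exp_nat_mul, ← Real.exp_nat_mul, ← Real.exp_add, ← Real.exp_add,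
    Real.exp_lt_one_iff] at h1
  have e4 : X ^ 4 = 256 ^ (k + 1) := by
    rw [hX, ← pow_mul, mul_comm, pow_mul]; norm_num
  have e3 : X ^ 3 = 64 ^ (k + 1) := by
    rw [hX, ← pow_mul, mul_comm, pow_mul]; norm_num
  have e5 : X ^ 2 = 16 ^ (k + 1) := by
    rw [hX, ← pow_mul, mul_comm, pow_mul]; norm_num
  push_cast at h1
  rw [← e4, ← e3, ← e5] at h1
  have : X ^ 4 * -(X⁻¹ ^ 2) + X ^ 3 * (2 * X⁻¹) + -X ^ 2 = 0 := by
    field_simp
    ring
  linarith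

theorem tendsto_cons {l : Filter ℝ} {f g h : ℝ → ℂ} {a b c : ℂ} (hf : Tendsto f l (𝓝 a))
    (hg : Tendsto g l (𝓝 b)) (hh : Tendsto h l (𝓝 c)) :
    Tendsto (fun t => ![f t, g t, h t]) l (𝓝 ![a, b, c]) := by
  rw [tendsto_pi_nhds]
  intro i
  fin_cases i
  · exact hf
  · exact hg
  · exact hh

theorem wpt_mem_frontier (k : ℕ) : wpt ((4 : ℝ) ^ (k + 1)) ∈ frontier DD := by
  rw [isOpen_DD.frontier_eq]
  refine ⟨?_, wpt_not_mem k⟩
  set X : ℝ := (4 : ℝ) ^ (k + 1) with hX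
  have hX4 : 4 ≤ X := by
    rw [hX, pow_succ]
    have := one_le_pow₀ (by norm_num : (1 : ℝ) ≤ 4) (n := k)
    linarith
  have h1 : Tendsto (fun t : ℝ =>
      (![(Real.exp (-(X⁻¹ ^ 2 + t)) : ℂ), 1, (Real.exp (2 * X⁻¹) : ℂ)] : Fin 3 → ℂ))
      (𝓝[>] 0) (𝓝 (wpt X)) := by
    apply tendsto_cons
    · have h2 : Continuous (fun t : ℝ => (Real.exp (-(X⁻¹ ^ 2 + t)) : ℂ)) := by fun_prop
      have h3 := h2.tendsto 0
      simp only [add_zero] at h3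
      exact h3.mono_left nhdsWithin_le_nhds
    · exact tendsto_const_nhds
    · exact tendsto_const_nhds
  apply mem_closure_of_tendsto h1
  filter_upwards [self_mem_nhdsWithin] with t ht
  exact mem_of_t hX4 ht

theorem tendsto_pt {X : ℕ → ℝ} (hX : Tendsto X atTop atTop) :
    Tendsto (fun k => pt (X k)) atTop (𝓝 (fun _ => 1)) := by
  have h0 : Tendsto (fun k => (X k)⁻¹) atTop (𝓝 0) := hX.inv_tendsto_atTop
  rw [tendsto_pi_nhds]
  intro i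
  fin_cases i
  · have h1 : Continuous (fun x : ℝ => (Real.exp (-(x ^ 2 + x ^ 6)) : ℂ)) := by fun_prop
    have h2 := (h1.tendsto 0).comp h0
    have e : (Real.exp (-((0 : ℝ) ^ 2 + 0 ^ 6)) : ℂ) = 1 := by simp
    rw [e] at h2
    exact h2
  · exact tendsto_const_nhds
  · have h1 : Continuous (fun x : ℝ => (Real.exp (2 * x) : ℂ)) := by fun_prop
    have h2 := (h1.tendsto 0).comp h0
    have e : (Real.exp (2 * (0 : ℝ)) : ℂ) = 1 := by simp
    rw [e] at h2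
    exact h2

theorem bdist_pos {n : ℕ} {D : Set (Fin n → ℂ)} (hD : IsOpen D) {z : Fin n → ℂ} (hz : z ∈ D)
    (hf : (frontier D).Nonempty) : 0 < bdist D z := by
  obtain ⟨ε, hε, hb⟩ := Metric.isOpen_iff.mp hD z hz
  refine lt_of_lt_of_le hε (le_csInf ?_ ?_)
  · obtain ⟨w, hw⟩ := hf
    exact ⟨_, w, hw, rfl⟩
  · rintro r ⟨w, hw, rfl⟩
    have hwD : w ∉ D := by
      rw [hD.frontier_eq] at hw
      exact hw.2
    have h1 : ε ≤ ‖z - w‖ := by
      by_contra hcon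
      push Not at hcon
      exact hwD (hb (by rw [mem_ball, dist_comm, dist_eq_norm]; exact hcon))
    by_contra hcon
    push Not at hcon
    have h2 : ‖z - w‖ < ε := by
      rw [pi_norm_lt_iff hε]
      intro i
      refine lt_of_le_of_lt ?_ hcon
      apply Real.le_sqrt_of_sq_le
      exact Finset.single_le_sum (f := fun i => ‖z i - w i‖ ^ 2) (fun i _ => by positivity)
        (Finset.mem_univ i)
    linarith

theorem bdist_le (k : ℕ) : bdist DD (pt ((4 : ℝ) ^ (k + 1))) ≤ ((4 : ℝ) ^ (k + 1))⁻¹ ^ 6 := by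
  set X : ℝ := (4 : ℝ) ^ (k + 1) with hX
  have hX0 : 0 < X := by positivity
  have h1 : bdist DD (pt X) ≤ Real.sqrt (∑ i, ‖pt X i - wpt X i‖ ^ 2) := by
    apply csInf_le
    · refine ⟨0, ?_⟩
      rintro r ⟨w, -, rfl⟩
      exact Real.sqrt_nonneg _
    · exact ⟨wpt X, wpt_mem_frontier k, rfl⟩
  refine h1.trans ?_
  have e : ∑ i, ‖pt X i - wpt X i‖ ^ 2 =
      (Real.exp (-(X⁻¹ ^ 2)) - Real.exp (-(X⁻¹ ^ 2 + X⁻¹ ^ 6))) ^ 2 := by
    rw [Fin.sum_univ_three]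
    simp only [pt, wpt, Matrix.cons_val_zero, Matrix.cons_val_one, Matrix.cons_val, sub_self,
      norm_zero]
    rw [← Complex.ofReal_sub, Complex.norm_real, Real.norm_eq_abs, sq_abs]
    ring
  have hpos : 0 < X⁻¹ ^ 6 := by positivity
  have hmono : Real.exp (-(X⁻¹ ^ 2 + X⁻¹ ^ 6)) ≤ Real.exp (-(X⁻¹ ^ 2)) :=
    Real.exp_le_exp.mpr (by linarith)
  rw [e, Real.sqrt_sq (by linarith)]
  have h2 : Real.exp (-(X⁻¹ ^ 2 + X⁻¹ ^ 6)) = Real.exp (-(X⁻¹ ^ 2)) * Real.exp (-X⁻¹ ^ 6) := by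
    rw [← Real.exp_add]; congr 1; ring
  have h3 : 1 - X⁻¹ ^ 6 ≤ Real.exp (-X⁻¹ ^ 6) := by
    have := Real.add_one_le_exp (-X⁻¹ ^ 6)
    linarith
  have h4 : Real.exp (-(X⁻¹ ^ 2)) ≤ 1 := Real.exp_le_one_iff.mpr (by
    have : 0 < X⁻¹ ^ 2 := by positivity
    linarith)
  have h5 : 0 < Real.exp (-(X⁻¹ ^ 2)) := Real.exp_pos _
  rw [h2]
  nlinarith

theorem artanh_exp_le {X : ℝ} (hX : 1 ≤ X) :
    Real.artanh (Real.exp (-(X⁻¹ ^ 2))) ≤ Real.log 2 + Real.log X := by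
  have hX0 : 0 < X := by linarith
  set η : ℝ := X⁻¹ ^ 2 with hη
  have hη0 : 0 < η := by positivity
  have hη1 : η ≤ 1 := by
    rw [hη]
    exact pow_le_one₀ (by positivity) (inv_le_one_of_one_le₀ hX)
  have hr0 : 0 < Real.exp (-η) := Real.exp_pos _
  have hr1 : Real.exp (-η) ≤ 1 - η / 2 := by
    have h1 : 1 + η ≤ Real.exp η := by
      have := Real.add_one_le_exp η
      linarith
    rw [Real.exp_neg]
    have h2 : (Real.exp η)⁻¹ ≤ (1 + η)⁻¹ := inv_anti₀ (by linarith) h1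
    refine h2.trans ?_
    rw [inv_le_comm₀ (by linarith) (by linarith)]
    rw [inv_le_comm₀ (by linarith) (by linarith), inv_le_iff_one_le_mul₀ (by linarith)]
    nlinarith
  have hr2 : Real.exp (-η) < 1 := by linarith
  rw [Real.artanh_eq_half_log ⟨by linarith, hr2.le⟩]
  have h3 : (1 + Real.exp (-η)) / (1 - Real.exp (-η)) ≤ (2 * X) ^ 2 := by
    rw [div_le_iff₀ (by linarith)]
    have h4 : (2 * X) ^ 2 * (η / 2) = 2 := by
      rw [hη]
      field_simp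
    have h5 : (2 * X) ^ 2 * (η / 2) ≤ (2 * X) ^ 2 * (1 - Real.exp (-η)) := by
      gcongr
      linarith
    linarith
  have h6 : 0 < (1 + Real.exp (-η)) / (1 - Real.exp (-η)) := by
    apply div_pos <;> linarith
  have h7 := Real.log_le_log h6 h3
  rw [Real.log_pow, Real.log_mul (by norm_num) hX0.ne'] at h7
  push_cast at h7
  linarith

theorem poincare_zero_left (b : ℂ) : poincare 0 b = Real.artanh ‖b‖ := by
  simp [poincare]

/-- The points of the chain. -/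
noncomputable def cp (z₀ : Fin 3 → ℂ) (X : ℝ) : ℕ → Fin 3 → ℂ
  | 0 => z₀
  | 1 => 0
  | 2 => ![0, 0, (Real.exp (2 * X⁻¹) : ℂ)]
  | 3 => ![(Real.exp (-(X⁻¹ ^ 2 + X⁻¹ ^ 6)) : ℂ), 0, (Real.exp (2 * X⁻¹) : ℂ)]
  | _ => pt X

/-- The discs of the chain. -/
noncomputable def cf (z₀ : Fin 3 → ℂ) (ρ X : ℝ) : ℕ → ℂ → Fin 3 → ℂ
  | 0 => fun x => x • ((ρ : ℂ) • z₀)
  | 1 => fun x => ![0, 0, (Real.exp 1 : ℂ) * x]
  | 2 => fun x => ![x, 0, (Real.exp (2 * X⁻¹) : ℂ)]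
  | _ => fun x => ![(Real.exp (-(X⁻¹ ^ 2 + X⁻¹ ^ 6)) : ℂ), (Real.exp (X⁻¹ ^ 2) : ℂ) * x,
      (Real.exp (2 * X⁻¹) : ℂ)]

/-- The starting parameters. -/
noncomputable def ca (ρ : ℝ) : ℕ → ℂ
  | 0 => ((ρ⁻¹ : ℝ) : ℂ)
  | _ => 0

/-- The end parameters. -/
noncomputable def cb (X : ℝ) : ℕ → ℂ
  | 0 => 0
  | 1 => (Real.exp (2 * X⁻¹ - 1) : ℂ)
  | 2 => (Real.exp (-(X⁻¹ ^ 2 + X⁻¹ ^ 6)) : ℂ)
  | _ => (Real.exp (-(X⁻¹ ^ 2)) : ℂ)

theorem disc1 {x : ℂ} (hx : ‖x‖ < 1) : ![0, 0, (Real.exp 1 : ℂ) * x] ∈ DD := by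
  intro i
  match i with
  | 0 => simp [ff]
  | 1 => simp [ff]
  | 2 =>
    simp only [ff, Matrix.cons_val, norm_mul, norm_exp_real]
    calc Real.exp 1 * ‖x‖ * Real.exp (-1) = ‖x‖ * (Real.exp 1 * Real.exp (-1)) := by ring
      _ = ‖x‖ := by rw [← Real.exp_add]; simp
      _ < 1 := hx
  | k + 3 => simp [ff]

theorem disc2 {X : ℝ} (hX : 4 ≤ X) {x : ℂ} (hx : ‖x‖ < 1) :
    ![x, 0, (Real.exp (2 * X⁻¹) : ℂ)] ∈ DD := by
  have hX0 : 0 < X := by linarith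
  have hXi : X⁻¹ ≤ 1 / 4 := by
    rw [inv_le_comm₀ hX0 (by norm_num)]
    norm_num
    exact hX
  intro i
  match i with
  | 0 => simpa [ff] using hx
  | 1 => simp [ff]
  | 2 =>
    simp only [ff, Matrix.cons_val, norm_mul, norm_exp_real]
    rw [← Real.exp_add, Real.exp_lt_one_iff]
    linarith
  | k + 3 => simp [ff]

theorem disc3 (m : ℕ) {x : ℂ} (hx : ‖x‖ < 1) :
    ![(Real.exp (-((((4 : ℝ) ^ (m + 1))⁻¹) ^ 2 + (((4 : ℝ) ^ (m + 1))⁻¹) ^ 6)) : ℂ),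
      (Real.exp ((((4 : ℝ) ^ (m + 1))⁻¹) ^ 2) : ℂ) * x,
      (Real.exp (2 * (((4 : ℝ) ^ (m + 1))⁻¹)) : ℂ)] ∈ DD := by
  set X : ℝ := (4 : ℝ) ^ (m + 1) with hX
  have hX4 : 4 ≤ X := by
    rw [hX, pow_succ]
    have := one_le_pow₀ (by norm_num : (1 : ℝ) ≤ 4) (n := m)
    linarith
  have hX0 : 0 < X := by linarith
  have hXi : X⁻¹ ≤ 1 / 4 := by
    rw [inv_le_comm₀ hX0 (by norm_num)]
    norm_num
    exact hX4
  have hXi0 : 0 < X⁻¹ := by positivity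
  intro i
  match i with
  | 0 =>
    simp only [ff, Matrix.cons_val_zero, norm_exp_real]
    rw [Real.exp_lt_one_iff]
    have : 0 < X⁻¹ ^ 2 + X⁻¹ ^ 6 := by positivity
    linarith
  | 1 =>
    simp only [ff, Matrix.cons_val_one, Matrix.cons_val_zero, norm_mul, norm_exp_real]
    calc Real.exp (X⁻¹ ^ 2) * ‖x‖ * Real.exp (-1)
        = ‖x‖ * Real.exp (X⁻¹ ^ 2 + -1) := by rw [Real.exp_add]; ring
      _ ≤ ‖x‖ * 1 := by
        gcongr
        rw [Real.exp_le_one_iff]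
        nlinarith
      _ < 1 := by linarith
  | 2 =>
    simp only [ff, Matrix.cons_val, norm_mul, norm_exp_real]
    rw [← Real.exp_add, Real.exp_lt_one_iff]
    linarith
  | k + 3 =>
    have h := norm_ff_le k (z := ![(Real.exp (-(X⁻¹ ^ 2 + X⁻¹ ^ 6)) : ℂ),
      (Real.exp (X⁻¹ ^ 2) : ℂ) * x, (Real.exp (2 * X⁻¹) : ℂ)])
      (a := X⁻¹ ^ 2 + X⁻¹ ^ 6) (b := X⁻¹ ^ 2) (c := 2 * X⁻¹) (r := ‖x‖) (norm_nonneg _)
      (by simp only [Matrix.cons_val_zero, norm_exp_real]; exact le_rfl)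
      (by simp only [Matrix.cons_val_one, Matrix.cons_val_zero, norm_mul, norm_exp_real]
          rw [mul_comm])
      (by simp only [Matrix.cons_val, norm_exp_real]; exact le_rfl)
    refine h.trans_lt ?_
    set Y : ℝ := (4 : ℝ) ^ (k + 1) with hY
    have hY4 : 4 ≤ Y := by
      rw [hY, pow_succ]
      have := one_le_pow₀ (by norm_num : (1 : ℝ) ≤ 4) (n := k)
      linarith
    have hY0 : 0 < Y := by linarith
    have hle : -(X⁻¹ ^ 2 + X⁻¹ ^ 6) * Y ^ 4 + X⁻¹ ^ 2 + 2 * X⁻¹ * Y ^ 3 - Y ^ 2 ≤ 0 := by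
      have hid : -(X⁻¹ ^ 2 + X⁻¹ ^ 6) * Y ^ 4 + X⁻¹ ^ 2 + 2 * X⁻¹ * Y ^ 3 - Y ^ 2 =
        -(Y ^ 2 * (Y * X⁻¹ - 1) ^ 2) - X⁻¹ ^ 6 * Y ^ 4 + X⁻¹ ^ 2 := by ring
      rw [hid]
      rcases lt_trichotomy k m with hkm | hkm | hkm
      · have h1 : 4 * Y ≤ X := by
          rw [hY, hX, mul_comm, ← pow_succ]
          exact pow_le_pow_right₀ (by norm_num) (by omega)
        have h2 : Y * X⁻¹ ≤ 1 / 4 := by
          rw [← div_eq_mul_inv, div_le_iff₀ hX0]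
          linarith
        have h3 : 0 < Y * X⁻¹ := by positivity
        have h4 : (9 / 16 : ℝ) ≤ (Y * X⁻¹ - 1) ^ 2 := by nlinarith
        have h5 : (16 : ℝ) ≤ Y ^ 2 := by nlinarith
        have h6 : (9 : ℝ) ≤ Y ^ 2 * (Y * X⁻¹ - 1) ^ 2 := by
          calc (9 : ℝ) = 16 * (9 / 16) := by norm_num
            _ ≤ Y ^ 2 * (Y * X⁻¹ - 1) ^ 2 := by gcongr
        have h7 : X⁻¹ ^ 2 ≤ 1 := by nlinarith
        have h8 : 0 ≤ X⁻¹ ^ 6 * Y ^ 4 := by positivity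
        linarith
      · have h1 : Y = X := by rw [hY, hX, hkm]
        rw [h1, mul_inv_cancel₀ hX0.ne']
        have h2 : X⁻¹ ^ 6 * X ^ 4 = X⁻¹ ^ 2 := by
          field_simp
        rw [h2]
        linarith
      · have h1 : 4 * X ≤ Y := by
          rw [hY, hX, mul_comm, ← pow_succ]
          exact pow_le_pow_right₀ (by norm_num) (by omega)
        have h2 : 4 ≤ Y * X⁻¹ := by
          rw [← div_eq_mul_inv, le_div_iff₀ hX0]
          exact h1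
        have h4 : (9 : ℝ) ≤ (Y * X⁻¹ - 1) ^ 2 := by nlinarith
        have h5 : (16 : ℝ) ≤ Y ^ 2 := by nlinarith
        have h6 : (9 : ℝ) ≤ Y ^ 2 * (Y * X⁻¹ - 1) ^ 2 := by
          calc (9 : ℝ) ≤ 16 * 9 := by norm_num
            _ ≤ Y ^ 2 * (Y * X⁻¹ - 1) ^ 2 := by gcongr
        have h7 : X⁻¹ ^ 2 ≤ 1 := by nlinarith
        have h8 : 0 ≤ X⁻¹ ^ 6 * Y ^ 4 := by positivity
        linarith
    calc ‖x‖ * Real.exp (-(X⁻¹ ^ 2 + X⁻¹ ^ 6) * Y ^ 4 + X⁻¹ ^ 2 + 2 * X⁻¹ * Y ^ 3 - Y ^ 2)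
        ≤ ‖x‖ * 1 := by
          gcongr
          exact Real.exp_le_one_iff.mpr hle
      _ < 1 := by linarith

theorem exists_rho {z₀ : Fin 3 → ℂ} (h : z₀ ∈ DD) : ∃ ρ : ℝ, 1 < ρ ∧ (ρ : ℂ) • z₀ ∈ DD := by
  have hc : Continuous (fun ρ : ℝ => (ρ : ℂ) • z₀) := by fun_prop
  have h1 : ∀ᶠ ρ : ℝ in 𝓝 1, (ρ : ℂ) • z₀ ∈ DD := by
    apply hc.continuousAt.eventually_mem
    apply isOpen_DD.mem_nhds
    simpa using h
  have h2 : ∀ᶠ ρ : ℝ in 𝓝[>] 1, (ρ : ℂ) • z₀ ∈ DD := h1.filter_mono nhdsWithin_le_nhds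
  obtain ⟨ρ, h3, h4⟩ := (h2.and self_mem_nhdsWithin).exists
  exact ⟨ρ, h4, h3⟩

theorem is_chain {z₀ : Fin 3 → ℂ} {ρ : ℝ} (hρ : 1 < ρ) (h : (ρ : ℂ) • z₀ ∈ DD) (m : ℕ) :
    IsChain DD 4 z₀ (pt ((4 : ℝ) ^ (m + 1)))
      (∑ j ∈ Finset.range 4, poincare (ca ρ j) (cb ((4 : ℝ) ^ (m + 1)) j)) := by
  have hd3 := fun x => disc3 m (x := x)
  set X : ℝ := (4 : ℝ) ^ (m + 1) with hX
  have hX4 : 4 ≤ X := by
    rw [hX, pow_succ]
    have := one_le_pow₀ (by norm_num : (1 : ℝ) ≤ 4) (n := m)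
    linarith
  have hX0 : 0 < X := by linarith
  have hXi : X⁻¹ ≤ 1 / 4 := by
    rw [inv_le_comm₀ hX0 (by norm_num)]
    norm_num
    exact hX4
  have hρ0 : 0 < ρ := by linarith
  have hd0 : ∀ x : ℂ, ‖x‖ < 1 → x • ((ρ : ℂ) • z₀) ∈ DD := by
    intro x hx
    apply ff_rot _ _ h
    intro j
    rw [Pi.smul_apply, norm_smul]
    exact mul_le_of_le_one_left (norm_nonneg _) hx.le
  have hb1 : ‖cb X 1‖ < 1 := by
    simp only [cb, norm_exp_real]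
    rw [Real.exp_lt_one_iff]
    linarith
  have hb2 : ‖cb X 2‖ < 1 := by
    simp only [cb, norm_exp_real]
    rw [Real.exp_lt_one_iff]
    have : 0 < X⁻¹ ^ 2 + X⁻¹ ^ 6 := by positivity
    linarith
  have hb3 : ‖cb X 3‖ < 1 := by
    simp only [cb, norm_exp_real]
    rw [Real.exp_lt_one_iff]
    have : 0 < X⁻¹ ^ 2 := by positivity
    linarith
  have f00 : cf z₀ ρ X 0 (ca ρ 0) = cp z₀ X 0 := by
    simp only [cf, ca, cp]
    rw [smul_smul, ← Complex.ofReal_mul, inv_mul_cancel₀ hρ0.ne']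
    simp
  have f01 : cf z₀ ρ X 0 (cb X 0) = cp z₀ X 1 := by simp [cf, cb, cp]
  have f10 : cf z₀ ρ X 1 (ca ρ 1) = cp z₀ X 1 := by
    funext i
    fin_cases i <;> simp [cf, ca, cp]
  have f11 : cf z₀ ρ X 1 (cb X 1) = cp z₀ X 2 := by
    funext i
    fin_cases i
    · rfl
    · rfl
    · change (Real.exp 1 : ℂ) * (Real.exp (2 * X⁻¹ - 1) : ℂ) = (Real.exp (2 * X⁻¹) : ℂ)
      rw [← Complex.ofReal_mul, ← Real.exp_add]
      congr 2
      ring
  have f20 : cf z₀ ρ X 2 (ca ρ 2) = cp z₀ X 2 := rfl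
  have f21 : cf z₀ ρ X 2 (cb X 2) = cp z₀ X 3 := rfl
  have f30 : cf z₀ ρ X 3 (ca ρ 3) = cp z₀ X 3 := by
    funext i
    fin_cases i
    · rfl
    · change (Real.exp (X⁻¹ ^ 2) : ℂ) * 0 = 0
      rw [mul_zero]
    · rfl
  have f31 : cf z₀ ρ X 3 (cb X 3) = cp z₀ X 4 := by
    funext i
    fin_cases i
    · rfl
    · change (Real.exp (X⁻¹ ^ 2) : ℂ) * (Real.exp (-(X⁻¹ ^ 2)) : ℂ) = 1
      rw [← Complex.ofReal_mul, ← Real.exp_add]
      simp
    · rfl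
  have m0 : ∀ x ∈ ball (0 : ℂ) 1, cf z₀ ρ X 0 x ∈ DD := fun x hx => hd0 x (by simpa using hx)
  have m1 : ∀ x ∈ ball (0 : ℂ) 1, cf z₀ ρ X 1 x ∈ DD := fun x hx => disc1 (by simpa using hx)
  have m2 : ∀ x ∈ ball (0 : ℂ) 1, cf z₀ ρ X 2 x ∈ DD := fun x hx => disc2 hX4 (by simpa using hx)
  have m3 : ∀ x ∈ ball (0 : ℂ) 1, cf z₀ ρ X 3 x ∈ DD := fun x hx => hd3 x (by simpa using hx)
  have a0 : ca ρ 0 ∈ ball (0 : ℂ) 1 := by
    rw [mem_ball_zero_iff]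
    simp only [ca, Complex.norm_real]
    rw [Real.norm_of_nonneg (by positivity)]
    exact inv_lt_one_of_one_lt₀ hρ
  have a1 : ca ρ 1 ∈ ball (0 : ℂ) 1 := by simp [ca]
  have a2 : ca ρ 2 ∈ ball (0 : ℂ) 1 := by simp [ca]
  have a3 : ca ρ 3 ∈ ball (0 : ℂ) 1 := by simp [ca]
  have b0 : cb X 0 ∈ ball (0 : ℂ) 1 := by simp [cb]
  have b1 : cb X 1 ∈ ball (0 : ℂ) 1 := by rw [mem_ball_zero_iff]; exact hb1
  have b2 : cb X 2 ∈ ball (0 : ℂ) 1 := by rw [mem_ball_zero_iff]; exact hb2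
  have b3 : cb X 3 ∈ ball (0 : ℂ) 1 := by rw [mem_ball_zero_iff]; exact hb3
  refine ⟨cp z₀ X, cf z₀ ρ X, ca ρ, cb X, rfl, rfl, ?_, ?_, rfl⟩
  · intro j hj
    interval_cases j
    · rw [← f00]; exact m0 _ a0
    · rw [← f10]; exact m1 _ a1
    · rw [← f20]; exact m2 _ a2
    · rw [← f30]; exact m3 _ a3
    · rw [← f31]; exact m3 _ b3
  · intro j hj
    interval_cases j
    · refine ⟨?_, m0, a0, b0, f00, f01⟩
      change DifferentiableOn ℂ (fun x : ℂ => x • ((ρ : ℂ) • z₀)) (ball 0 1)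
      fun_prop
    · refine ⟨?_, m1, a1, b1, f10, f11⟩
      rw [differentiableOn_pi]
      intro i
      fin_cases i
      · change DifferentiableOn ℂ (fun x : ℂ => (0 : ℂ)) (ball 0 1)
        fun_prop
      · change DifferentiableOn ℂ (fun x : ℂ => (0 : ℂ)) (ball 0 1)
        fun_prop
      · change DifferentiableOn ℂ (fun x : ℂ => (Real.exp 1 : ℂ) * x) (ball 0 1)
        fun_prop
    · refine ⟨?_, m2, a2, b2, f20, f21⟩
      rw [differentiableOn_pi]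
      intro i
      fin_cases i
      · change DifferentiableOn ℂ (fun x : ℂ => x) (ball 0 1)
        fun_prop
      · change DifferentiableOn ℂ (fun x : ℂ => (0 : ℂ)) (ball 0 1)
        fun_prop
      · change DifferentiableOn ℂ (fun x : ℂ => (Real.exp (2 * X⁻¹) : ℂ)) (ball 0 1)
        fun_prop
    · refine ⟨?_, m3, a3, b3, f30, f31⟩
      rw [differentiableOn_pi]
      intro i
      fin_cases i
      · change DifferentiableOn ℂ (fun x : ℂ => (Real.exp (-(X⁻¹ ^ 2 + X⁻¹ ^ 6)) : ℂ)) (ball 0 1)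
        fun_prop
      · change DifferentiableOn ℂ (fun x : ℂ => (Real.exp (X⁻¹ ^ 2) : ℂ) * x) (ball 0 1)
        fun_prop
      · change DifferentiableOn ℂ (fun x : ℂ => (Real.exp (2 * X⁻¹) : ℂ)) (ball 0 1)
        fun_prop

theorem kob_le {z₀ : Fin 3 → ℂ} (h : z₀ ∈ DD) : ∃ C : ℝ, ∀ m : ℕ,
    kob DD z₀ (pt ((4 : ℝ) ^ (m + 1))) ≤ C + 2 * Real.log ((4 : ℝ) ^ (m + 1)) := by
  obtain ⟨ρ, hρ, hρD⟩ := exists_rho h
  refine ⟨poincare (ca ρ 0) 0 + Real.artanh (Real.exp (-(1 / 2))) + 2 * Real.log 2, fun m => ?_⟩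
  have hc := is_chain hρ hρD m
  set X : ℝ := (4 : ℝ) ^ (m + 1) with hX
  have hX4 : 4 ≤ X := by
    rw [hX, pow_succ]
    have := one_le_pow₀ (by norm_num : (1 : ℝ) ≤ 4) (n := m)
    linarith
  have hX0 : 0 < X := by linarith
  have hXi : X⁻¹ ≤ 1 / 4 := by
    rw [inv_le_comm₀ hX0 (by norm_num)]
    norm_num
    exact hX4
  have h1 : kob DD z₀ (pt X) ≤ ∑ j ∈ Finset.range 4, poincare (ca ρ j) (cb X j) := by
    apply csInf_le
    · refine ⟨0, ?_⟩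
      rintro L ⟨m, hL⟩
      exact chain_length_nonneg hL
    · exact ⟨4, hc⟩
  refine h1.trans ?_
  simp only [Finset.sum_range_succ, Finset.sum_range_zero, zero_add]
  have t0 : poincare (ca ρ 0) (cb X 0) = poincare (ca ρ 0) 0 := rfl
  have t1 : poincare (ca ρ 1) (cb X 1) ≤ Real.artanh (Real.exp (-(1 / 2))) := by
    change poincare 0 _ ≤ _
    rw [poincare_zero_left]
    simp only [cb, norm_exp_real]
    apply Real.artanh_le_artanh
    · have := Real.exp_pos (2 * X⁻¹ - 1)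
      linarith
    · rw [Real.exp_lt_one_iff]; norm_num
    · exact Real.exp_le_exp.mpr (by linarith)
  have hlt : Real.exp (-(X⁻¹ ^ 2)) < 1 := by
    rw [Real.exp_lt_one_iff]
    have : 0 < X⁻¹ ^ 2 := by positivity
    linarith
  have t3 : poincare (ca ρ 3) (cb X 3) ≤ Real.log 2 + Real.log X := by
    change poincare 0 _ ≤ _
    rw [poincare_zero_left]
    simp only [cb, norm_exp_real]
    exact artanh_exp_le (by linarith)
  have t2 : poincare (ca ρ 2) (cb X 2) ≤ Real.log 2 + Real.log X := by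
    change poincare 0 _ ≤ _
    rw [poincare_zero_left]
    simp only [cb, norm_exp_real]
    refine le_trans ?_ (artanh_exp_le (by linarith))
    apply Real.artanh_le_artanh
    · have := Real.exp_pos (-(X⁻¹ ^ 2 + X⁻¹ ^ 6))
      linarith
    · exact hlt
    · exact Real.exp_le_exp.mpr (by
        have : 0 < X⁻¹ ^ 6 := by positivity
        linarith)
  rw [t0]
  linarith

theorem main : ∃ D : Set (Fin 3 → ℂ), IsOpen D ∧ IsConnected D ∧ Bornology.IsBounded D ∧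
    IsPseudoconvex D ∧ IsReinhardt D ∧ (fun _ => 1) ∈ frontier D ∧
    ∃ z : ℕ → Fin 3 → ℂ, (∀ k, z k ∈ D ∧ 0 < bdist D (z k)) ∧
      Tendsto z atTop (𝓝 (fun _ => 1)) ∧
      ∀ z₀ ∈ D, Tendsto (fun k => kob D z₀ (z k) + 1 / 2 * Real.log (bdist D (z k)))
        atTop atBot := by
  have hXt : Tendsto (fun k : ℕ => (4 : ℝ) ^ (k + 1)) atTop atTop :=
    (tendsto_pow_atTop_atTop_of_one_lt (by norm_num : (1 : ℝ) < 4)).comp (tendsto_add_atTop_nat 1)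
  have hmem : ∀ k : ℕ, pt ((4 : ℝ) ^ (k + 1)) ∈ DD := by
    intro k
    have hX4 : (4 : ℝ) ≤ (4 : ℝ) ^ (k + 1) := by
      rw [pow_succ]
      have := one_le_pow₀ (by norm_num : (1 : ℝ) ≤ 4) (n := k)
      linarith
    exact mem_of_t hX4 (by positivity)
  have hfr : (frontier DD).Nonempty := ⟨_, wpt_mem_frontier 0⟩
  have hone : (fun _ => 1 : Fin 3 → ℂ) ∈ frontier DD := by
    rw [isOpen_DD.frontier_eq]
    refine ⟨?_, ?_⟩
    · exact mem_closure_of_tendsto (tendsto_pt hXt) (Eventually.of_forall hmem)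
    · intro h
      have := h 0
      simp [ff] at this
  refine ⟨DD, isOpen_DD, connected_DD, isBounded_DD, pseudoconvex_DD, reinhardt_DD, hone,
    fun k => pt ((4 : ℝ) ^ (k + 1)), fun k => ⟨hmem k, bdist_pos isOpen_DD (hmem k) hfr⟩,
    tendsto_pt hXt, ?_⟩
  intro z₀ hz₀
  obtain ⟨C, hC⟩ := kob_le hz₀
  have hlog : Tendsto (fun k : ℕ => C - Real.log ((4 : ℝ) ^ (k + 1))) atTop atBot := by
    have h := (tendsto_const_nhds (x := C) (f := (atTop : Filter ℕ))).add_atBot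
      (tendsto_neg_atTop_atBot.comp (Real.tendsto_log_atTop.comp hXt))
    refine h.congr (fun k => ?_)
    simp only [Function.comp_apply]
    ring
  refine tendsto_atBot_mono ?_ hlog
  intro k
  have h1 := hC k
  have h2 := bdist_le k
  have h3 := bdist_pos isOpen_DD (hmem k) hfr
  set X : ℝ := (4 : ℝ) ^ (k + 1) with hX
  have hX0 : 0 < X := by positivity
  have h4 := Real.log_le_log h3 h2
  rw [Real.log_pow, Real.log_inv] at h4
  push_cast at h4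
  change kob DD z₀ (pt X) + 1 / 2 * Real.log (bdist DD (pt X)) ≤ C - Real.log X
  linarith

end Pool.Agent.V1171.RH
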