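import Pool.Agent.V1171.RH.Defs

/-!
Domains `{z | ∀ i, ‖f i z‖ < 1}` given by a locally finite sequence of entire functions are
pseudoconvex.
-/

set_option autoImplicit false

open Set Metric Filter Topology

namespace Pool.Agent.V1171.RH

theorem sq_norm_le_circleAverage {h : ℂ → ℂ} (hh : Differentiable ℂ h) :
    ‖h 0‖ ^ 2 ≤ Real.circleAverage (fun t => ‖h t‖ ^ 2) 0 1 := by
  have h1 : Real.circleAverage (fun t => h t ^ 2) 0 1 = h 0 ^ 2 :=
    (hh.pow 2).diffContOnCl.circleAverage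
  have h2 : ‖Real.circleAverage (fun t => h t ^ 2) 0 1‖ ≤
      Real.circleAverage (fun t => ‖h t ^ 2‖) 0 1 := by
    rw [Real.circleAverage, Real.circleAverage, norm_smul, smul_eq_mul, Real.norm_of_nonneg
      (by positivity)]
    exact mul_le_mul_of_nonneg_left (intervalIntegral.norm_integral_le_integral_norm
      Real.two_pi_pos.le) (by positivity)
  rw [h1, norm_pow] at h2
  simpa only [norm_pow] using h2

theorem inv_sub_mean {S : ℂ → ℝ} {c : ℝ} (hS : ContinuousOn S (sphere 0 1)) (h0 : S 0 < c)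
    (hlt : ∀ t ∈ sphere (0 : ℂ) 1, S t < c) (hm : S 0 ≤ Real.circleAverage S 0 1) :
    (c - S 0)⁻¹ ≤ Real.circleAverage (fun t => (c - S t)⁻¹) 0 1 := by
  have ha' : 0 < c - S 0 := by linarith
  have hint : CircleIntegrable (fun t : ℂ => (c - S t)⁻¹) 0 1 := by
    apply ContinuousOn.circleIntegrable zero_le_one
    apply ContinuousOn.inv₀ (continuousOn_const.sub hS)
    intro t ht
    have h2 := hlt t ht
    have : 0 < c - S t := by linarith
    exact this.ne'
  have hSi : CircleIntegrable S 0 1 := hS.circleIntegrable zero_le_one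
  set κ : ℝ := ((c - S 0) ^ 2)⁻¹ with hκ
  have hκ0 : 0 < κ := by positivity
  have hlin : CircleIntegrable (fun t : ℂ => (c - S 0)⁻¹ + κ * (S t - S 0)) 0 1 :=
    (continuousOn_const.add (continuousOn_const.mul (hS.sub continuousOn_const)))
      |>.circleIntegrable zero_le_one
  have hmono : Real.circleAverage
      (fun t : ℂ => (c - S 0)⁻¹ + κ * (S t - S 0)) 0 1 ≤
      Real.circleAverage (fun t : ℂ => (c - S t)⁻¹) 0 1 := by
    apply Real.circleAverage_mono hlin hint
    intro t ht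
    have h2 := hlt t (by simpa using ht)
    set x := c - S t with hx
    have hx0 : 0 < x := by rw [hx]; linarith
    have e1 : S t - S 0 = (c - S 0) - x := by rw [hx]; ring
    rw [e1, hκ]
    set y := c - S 0 with hy
    have e2 : x⁻¹ - (y⁻¹ + (y ^ 2)⁻¹ * (y - x)) = (y - x) ^ 2 / (x * y ^ 2) := by
      field_simp
      ring
    have e3 : 0 ≤ (y - x) ^ 2 / (x * y ^ 2) := by positivity
    linarith
  refine le_trans ?_ hmono
  have e4 : Real.circleAverage
      (fun t : ℂ => (c - S 0)⁻¹ + κ * (S t - S 0)) 0 1 =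
      (c - S 0)⁻¹ + κ * (Real.circleAverage S 0 1 - S 0) := by
    have e5 : (fun t : ℂ => (c - S 0)⁻¹ + κ * (S t - S 0)) =
        (fun _ : ℂ => (c - S 0)⁻¹ - κ * S 0) + κ • S := by
      funext t
      simp only [Pi.add_apply, Pi.smul_apply, smul_eq_mul]
      ring
    rw [e5, Real.circleAverage_add (circleIntegrable_const _ _ _) (hSi.const_smul),
      Real.circleAverage_const, Real.circleAverage_smul]
    simp only [smul_eq_mul]
    ring
  rw [e4]
  nlinarith [mul_nonneg hκ0.le (sub_nonneg.mpr hm)]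

variable {n : ℕ}

/-- The domain given by a sequence of functions. -/
def Dom (f : ℕ → (Fin n → ℂ) → ℂ) : Set (Fin n → ℂ) := {z | ∀ i, ‖f i z‖ < 1}

/-- The building blocks of the exhaustion function. -/
noncomputable def gg (f : ℕ → (Fin n → ℂ) → ℂ) (i : ℕ) (z : Fin n → ℂ) : ℝ :=
  max ((1 - ‖f i z‖ ^ 2)⁻¹ - 2) 0

/-- The local finiteness condition. -/
def LocFin (f : ℕ → (Fin n → ℂ) → ℂ) : Prop :=
  ∀ z ∈ Dom f, ∃ U ∈ 𝓝 z, ∃ N : ℕ, ∀ i, N ≤ i → ∀ w ∈ U, ‖f i w‖ ^ 2 ≤ 1 / 2

theorem gg_nonneg (f : ℕ → (Fin n → ℂ) → ℂ) (i : ℕ) (z : Fin n → ℂ) : 0 ≤ gg f i z :=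
  le_max_right _ _

theorem gg_eq_zero {f : ℕ → (Fin n → ℂ) → ℂ} {i : ℕ} {z : Fin n → ℂ}
    (h : ‖f i z‖ ^ 2 ≤ 1 / 2) : gg f i z = 0 := by
  apply max_eq_right
  have h1 : (1 / 2 : ℝ) ≤ 1 - ‖f i z‖ ^ 2 := by linarith
  have h2 : (1 - ‖f i z‖ ^ 2)⁻¹ ≤ (1 / 2 : ℝ)⁻¹ := inv_anti₀ (by norm_num) h1
  norm_num at h2
  linarith

theorem tsum_gg {f : ℕ → (Fin n → ℂ) → ℂ} {N : ℕ} {z : Fin n → ℂ}
    (h : ∀ i, N ≤ i → ‖f i z‖ ^ 2 ≤ 1 / 2) :
    ∑' i, gg f i z = ∑ i ∈ Finset.range N, gg f i z := by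
  apply tsum_eq_sum
  intro i hi
  exact gg_eq_zero (h i (by simpa using hi))

theorem isOpen_dom {f : ℕ → (Fin n → ℂ) → ℂ} (hc : ∀ i, Continuous (f i)) (hl : LocFin f) :
    IsOpen (Dom f) := by
  rw [isOpen_iff_mem_nhds]
  intro z hz
  obtain ⟨U, hU, N, hN⟩ := hl z hz
  have h1 : ∀ᶠ w in 𝓝 z, ∀ i ∈ Finset.range N, ‖f i w‖ < 1 := by
    rw [Filter.eventually_all_finset]
    intro i _
    exact ((hc i).norm.continuousAt.eventually_lt continuousAt_const (hz i))
  filter_upwards [hU, h1] with w hw1 hw2 i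
  by_cases hi : i < N
  · exact hw2 i (Finset.mem_range.mpr hi)
  · have := hN i (not_lt.mp hi) w hw1
    nlinarith [norm_nonneg (f i w)]

theorem continuousAt_gg {f : ℕ → (Fin n → ℂ) → ℂ} (hc : ∀ i, Continuous (f i)) (i : ℕ)
    {z : Fin n → ℂ} (hz : ‖f i z‖ < 1) : ContinuousAt (gg f i) z := by
  have h1 : ContinuousAt (fun w => (1 - ‖f i w‖ ^ 2)⁻¹ - 2) z := by
    apply ContinuousAt.sub _ continuousAt_const
    apply ContinuousAt.inv₀
    · exact (continuous_const.sub ((hc i).norm.pow 2)).continuousAt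
    · have : 0 < 1 - ‖f i z‖ ^ 2 := by nlinarith [norm_nonneg (f i z)]
      exact this.ne'
  exact Filter.Tendsto.max h1 tendsto_const_nhds

theorem compact_uniform {f : ℕ → (Fin n → ℂ) → ℂ} (hl : LocFin f) {K : Set (Fin n → ℂ)}
    (hK : IsCompact K) (hKD : K ⊆ Dom f) : ∃ N : ℕ, ∀ i, N ≤ i → ∀ w ∈ K, ‖f i w‖ ^ 2 ≤ 1 / 2 := by
  refine hK.induction_on (p := fun s => ∃ N : ℕ, ∀ i, N ≤ i → ∀ w ∈ s, ‖f i w‖ ^ 2 ≤ 1 / 2)
    ⟨0, by simp⟩ ?_ ?_ ?_
  · rintro s t hst ⟨N, hN⟩
    exact ⟨N, fun i hi w hw => hN i hi w (hst hw)⟩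
  · rintro s t ⟨N, hN⟩ ⟨M, hM⟩
    refine ⟨max N M, fun i hi w hw => ?_⟩
    rcases hw with hw | hw
    · exact hN i ((le_max_left _ _).trans hi) w hw
    · exact hM i ((le_max_right _ _).trans hi) w hw
  · intro z hz
    obtain ⟨U, hU, N, hN⟩ := hl z (hKD hz)
    exact ⟨U, mem_nhdsWithin_of_mem_nhds hU, N, hN⟩

theorem gg_mean {f : ℕ → (Fin n → ℂ) → ℂ} (hf : ∀ i, Differentiable ℂ (f i)) (i : ℕ)
    {a b : Fin n → ℂ} (hab : ∀ t ∈ closedBall (0 : ℂ) 1, a + t • b ∈ Dom f) :
    gg f i a ≤ Real.circleAverage (fun t => gg f i (a + t • b)) 0 1 := by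
  set h : ℂ → ℂ := fun t => f i (a + t • b) with hh
  have hd : Differentiable ℂ h := (hf i).comp (by fun_prop)
  have hlt : ∀ t ∈ closedBall (0 : ℂ) 1, ‖h t‖ ^ 2 < 1 := by
    intro t ht
    have : ‖h t‖ < 1 := hab t ht i
    nlinarith [norm_nonneg (h t)]
  have h0 : h 0 = f i a := by simp [hh]
  have hcont : ContinuousOn (fun t => ‖h t‖ ^ 2) (sphere (0 : ℂ) 1) :=
    (hd.continuous.norm.pow 2).continuousOn
  have hm := inv_sub_mean hcont (hlt 0 (by simp))
    (fun t ht => hlt t (sphere_subset_closedBall ht)) (sq_norm_le_circleAverage hd)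
  have hint : CircleIntegrable (fun t => (1 - ‖h t‖ ^ 2)⁻¹) 0 1 := by
    apply ContinuousOn.circleIntegrable zero_le_one
    apply ContinuousOn.inv₀ (continuousOn_const.sub hcont)
    intro t ht
    have := hlt t (sphere_subset_closedBall ht)
    have : 0 < 1 - ‖h t‖ ^ 2 := by linarith
    exact this.ne'
  have hint2 : CircleIntegrable (fun t => (1 - ‖h t‖ ^ 2)⁻¹ - 2) 0 1 :=
    hint.sub (circleIntegrable_const _ _ _)
  have hcg : ContinuousOn (fun t => gg f i (a + t • b)) (sphere (0 : ℂ) 1) := by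
    intro t ht
    have h1 := hab t (sphere_subset_closedBall ht) i
    have h2 : ContinuousAt (fun t : ℂ => a + t • b) t := by fun_prop
    exact (ContinuousAt.comp (f := fun t : ℂ => a + t • b)
      (continuousAt_gg (fun i => (hf i).continuous) i h1) h2).continuousWithinAt
  have hintg : CircleIntegrable (fun t => gg f i (a + t • b)) 0 1 :=
    hcg.circleIntegrable zero_le_one
  apply max_le
  · have h3 : Real.circleAverage (fun t => (1 - ‖h t‖ ^ 2)⁻¹ - 2) 0 1 ≤
        Real.circleAverage (fun t => gg f i (a + t • b)) 0 1 := by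
      apply Real.circleAverage_mono hint2 hintg
      intro t _
      exact le_max_left _ _
    have h4 : Real.circleAverage (fun t => (1 - ‖h t‖ ^ 2)⁻¹ - 2) 0 1 =
        Real.circleAverage (fun t => (1 - ‖h t‖ ^ 2)⁻¹) 0 1 - 2 := by
      have e := Real.circleAverage_sub hint (circleIntegrable_const (2 : ℝ) (0 : ℂ) 1)
      rw [Real.circleAverage_const] at e
      exact e
    rw [h4] at h3
    rw [h0] at hm
    linarith
  · apply Real.circleAverage_nonneg_of_nonneg
    intro t _
    exact gg_nonneg _ _ _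

theorem pseudoconvex_dom {f : ℕ → (Fin n → ℂ) → ℂ} (hf : ∀ i, Differentiable ℂ (f i))
    (hl : LocFin f) (hb : Bornology.IsBounded {z | ∀ i, ‖f i z‖ ≤ 1}) :
    IsPseudoconvex (Dom f) := by
  have hc : ∀ i, Continuous (f i) := fun i => (hf i).continuous
  have hcont : ContinuousOn (fun z => ∑' i, gg f i z) (Dom f) := by
    intro z hz
    apply ContinuousAt.continuousWithinAt
    obtain ⟨U, hU, N, hN⟩ := hl z hz
    have h1 : (fun z => ∑' i, gg f i z) =ᶠ[𝓝 z] fun z => ∑ i ∈ Finset.range N, gg f i z := by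
      filter_upwards [hU] with w hw
      exact tsum_gg fun i hi => hN i hi w hw
    apply ContinuousAt.congr _ h1.symm
    apply tendsto_finset_sum
    intro i _
    exact continuousAt_gg hc i (hz i)
  refine ⟨fun z => ∑' i, gg f i z, ⟨hcont, ?_⟩, ?_⟩
  · intro a b hab
    have hK : IsCompact ((fun t : ℂ => a + t • b) '' closedBall 0 1) :=
      (isCompact_closedBall (0 : ℂ) 1).image (by fun_prop)
    obtain ⟨N, hN⟩ := compact_uniform hl hK (by rintro _ ⟨t, ht, rfl⟩; exact hab t ht)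
    have e1 : ∑' i, gg f i a = ∑ i ∈ Finset.range N, gg f i a := by
      apply tsum_gg
      intro i hi
      exact hN i hi a ⟨0, by simp, by simp⟩
    have e2 : Real.circleAverage (fun t : ℂ => ∑' i, gg f i (a + t • b)) 0 1 =
        Real.circleAverage (fun t : ℂ => ∑ i ∈ Finset.range N, gg f i (a + t • b)) 0 1 := by
      apply Real.circleAverage_congr_sphere
      intro t ht
      apply tsum_gg
      intro i hi
      exact hN i hi _ ⟨t, sphere_subset_closedBall (by simpa using ht), rfl⟩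
    have hint : ∀ i ∈ Finset.range N, CircleIntegrable (fun t => gg f i (a + t • b)) 0 1 := by
      intro i _
      apply ContinuousOn.circleIntegrable zero_le_one
      intro t ht
      have h1 := hab t (sphere_subset_closedBall ht) i
      have h2 : ContinuousAt (fun t : ℂ => a + t • b) t := by fun_prop
      exact (ContinuousAt.comp (f := fun t : ℂ => a + t • b)
        (continuousAt_gg hc i h1) h2).continuousWithinAt
    change ∑' i, gg f i a ≤ Real.circleAverage (fun t : ℂ => ∑' i, gg f i (a + t • b)) 0 1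
    rw [e1, e2, Real.circleAverage_fun_sum hint]
    exact Finset.sum_le_sum fun i _ => gg_mean hf i hab
  · intro c
    set q : ℝ := 1 - (max c 0 + 2)⁻¹ with hq
    have hpos : 0 < max c 0 + 2 := by positivity
    have hq1 : q < 1 := by
      have := inv_pos.mpr hpos
      linarith
    set P : Set (Fin n → ℂ) := {z | ∀ i, ‖f i z‖ ^ 2 ≤ q} with hP
    have hPc : IsClosed P := by
      have : P = ⋂ i, {z | ‖f i z‖ ^ 2 ≤ q} := by
        ext z
        simp [hP]
      rw [this]
      exact isClosed_iInter fun i => isClosed_le ((hc i).norm.pow 2) continuous_const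
    have hPD : P ⊆ Dom f := by
      intro z hz i
      have := hz i
      by_contra hcon
      push Not at hcon
      nlinarith
    have hset : {z | z ∈ Dom f ∧ ∑' i, gg f i z ≤ c} =
        P ∩ (fun z => ∑' i, gg f i z) ⁻¹' Iic c := by
      ext z
      constructor
      · rintro ⟨h1, h2⟩
        refine ⟨fun i => ?_, h2⟩
        obtain ⟨U, hU, N, hN⟩ := hl z h1
        have hz := mem_of_mem_nhds hU
        have h3 : gg f i z ≤ max c 0 := by
          by_cases hi : i < N
          · rw [tsum_gg fun i hi => hN i hi z hz] at h2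
            have := Finset.single_le_sum (f := fun i => gg f i z) (fun j _ => gg_nonneg f j z)
              (Finset.mem_range.mpr hi)
            exact (this.trans h2).trans (le_max_left _ _)
          · rw [gg_eq_zero (hN i (not_lt.mp hi) z hz)]
            exact le_max_right _ _
        have h4 : (1 - ‖f i z‖ ^ 2)⁻¹ - 2 ≤ max c 0 := (le_max_left _ _).trans h3
        have h5 : 0 < 1 - ‖f i z‖ ^ 2 := by
          have := h1 i
          nlinarith [norm_nonneg (f i z)]
        have h6 : (1 - ‖f i z‖ ^ 2)⁻¹ ≤ max c 0 + 2 := by linarith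
        have h7 := inv_le_of_inv_le₀ h5 h6
        rw [hq]
        linarith
      · rintro ⟨h1, h2⟩
        exact ⟨hPD h1, h2⟩
    rw [hset]
    apply Metric.isCompact_of_isClosed_isBounded
    · exact (hcont.mono hPD).preimage_isClosed_of_isClosed hPc isClosed_Iic
    · refine hb.subset ?_
      intro z hz i
      exact (hPD hz.1 i).le

end Pool.Agent.V1171.RH
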